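import Pool.Agent.Helper65.AH.St

/-! Project AH, module EX: exponents and derivatives of power type germs. -/

set_option autoImplicit false

universe u

namespace Pool.Agent.Helper37.AH

open Filter Topology Pool.Agent.Helper58.RK Pool.Agent.Helper65.AH

theorem inv_zero' {f : ℝ ≃o ℝ} (h : f 0 = 0) : f⁻¹ 0 = 0 := by
  have h1 : f.symm (f 0) = 0 := f.symm_apply_apply 0
  rw [h] at h1
  exact h1

theorem app_inv (f : ℝ ≃o ℝ) (x : ℝ) : f (f⁻¹ x) = x := f.apply_symm_apply x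

theorem pos_of {f : ℝ ≃o ℝ} (h : f 0 = 0) {x : ℝ} (hx : 0 < x) : 0 < f x := by
  rw [← h]; exact f.strictMono hx

theorem tend {f : ℝ ≃o ℝ} (h : f 0 = 0) : Tendsto f (𝓝[>] (0 : ℝ)) (𝓝[>] 0) := by
  apply tendsto_nhdsWithin_of_tendsto_nhds_of_eventually_within
  · have := f.continuous.continuousAt (x := (0 : ℝ))
    have h2 : Tendsto f (𝓝 0) (𝓝 0) := by
      have h3 := this.tendsto
      rwa [h] at h3
    exact h2.mono_left nhdsWithin_le_nhds
  · filter_upwards [self_mem_nhdsWithin] with x hx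
    exact pos_of h hx

theorem rpow_tend {p : ℝ} (hp : 0 < p) : Tendsto (fun x : ℝ => x ^ p) (𝓝[>] (0 : ℝ)) (𝓝 0) := by
  have h := (Real.continuousAt_rpow_const (0 : ℝ) p (Or.inr hp.le)).tendsto
  rw [Real.zero_rpow hp.ne'] at h
  exact h.mono_left nhdsWithin_le_nhds

/-- power asymptotics give the exponent -/
theorem ex_of {f : ℝ ≃o ℝ} (h : f 0 = 0) {s c : ℝ} (hc : 0 < c)
    (ht : Tendsto (fun x => f x / x ^ s) (𝓝[>] (0 : ℝ)) (𝓝 c)) : Ex f s := by
  have h1 : Tendsto (fun x => Real.log (f x / x ^ s)) (𝓝[>] (0 : ℝ)) (𝓝 (Real.log c)) :=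
    ht.log hc.ne'
  have h2 : Tendsto (fun x => Real.log (f x / x ^ s) / Real.log x) (𝓝[>] (0 : ℝ)) (𝓝 0) :=
    h1.div_atBot Real.tendsto_log_nhdsGT_zero
  have h3 : Tendsto (fun x => s + Real.log (f x / x ^ s) / Real.log x) (𝓝[>] (0 : ℝ)) (𝓝 (s + 0)) :=
    tendsto_const_nhds.add h2
  rw [add_zero] at h3
  unfold Ex
  refine h3.congr' ?_
  filter_upwards [Ioo_mem_nhdsGT (show (0 : ℝ) < 1 by norm_num)] with x hx
  have hl : Real.log x ≠ 0 := (Real.log_neg hx.1 hx.2).ne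
  rw [Real.log_div (pos_of h hx.1).ne' (Real.rpow_pos_of_pos hx.1 s).ne', Real.log_rpow hx.1]
  field_simp
  ring

theorem ex_unique {f : ℝ ≃o ℝ} {α β : ℝ} (h1 : Ex f α) (h2 : Ex f β) : α = β :=
  tendsto_nhds_unique h1 h2

theorem ex_inv {f : ℝ ≃o ℝ} {α : ℝ} (h : f 0 = 0) (ha : 0 < α) (he : Ex f α) : Ex f⁻¹ α⁻¹ := by
  have h1 : Tendsto (fun x => (Real.log (f (f⁻¹ x)) / Real.log (f⁻¹ x))⁻¹) (𝓝[>] (0 : ℝ)) (𝓝 α⁻¹) :=
    (Tendsto.inv₀ he ha.ne').comp (tend (inv_zero' h))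
  unfold Ex
  refine h1.congr ?_
  intro x
  rw [app_inv, inv_div]

theorem ra_inv {f : ℝ ≃o ℝ} {l : ℝ} (h : f 0 = 0) (ha : 0 < l) (he : Ra f l) : Ra f⁻¹ l⁻¹ := by
  have h1 : Tendsto (fun x => (f (f⁻¹ x) / (f⁻¹ x))⁻¹) (𝓝[>] (0 : ℝ)) (𝓝 l⁻¹) :=
    (Tendsto.inv₀ he ha.ne').comp (tend (inv_zero' h))
  unfold Ra
  refine h1.congr ?_
  intro x
  rw [app_inv, inv_div]

/-- case (S) of the classification -/
def Sm (f : ℝ ≃o ℝ) (c s : ℝ) : Prop :=
  0 < c ∧ 0 < s ∧ s < 1 ∧ Tendsto (fun x => f x / x ^ s) (𝓝[>] (0 : ℝ)) (𝓝 c) ∧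
    ∃ f' : ℝ → ℝ, (∀ᶠ x in 𝓝[>] (0 : ℝ), HasDerivAt f (f' x) x) ∧
      Tendsto (fun x => f' x / x ^ (s - 1)) (𝓝[>] (0 : ℝ)) (𝓝 (s * c))

theorem cls {f : ℝ ≃o ℝ} (h : f 0 = 0) (hP : Pow (fun x => f x - x)) :
    (∃ l, 0 ≤ l ∧ Ra f l) ∨ ∃ c s, Sm f c s := by
  rcases hP with hZ | ⟨c, s, hc, hs, u', hu, hus, hus'⟩
  · left
    refine ⟨1, zero_le_one, ?_⟩
    unfold Ra
    refine (tendsto_const_nhds (x := (1 : ℝ))).congr' ?_
    filter_upwards [hZ, self_mem_nhdsWithin] with x hx hx0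
    have hx1 : (0 : ℝ) < x := hx0
    rw [eq_div_iff hx1.ne']; linarith
  · rcases lt_or_ge s 1 with h1 | h1
    · right
      have e1 : Tendsto (fun x : ℝ => x ^ (1 - s)) (𝓝[>] (0 : ℝ)) (𝓝 0) := rpow_tend (by linarith)
      have e2 : Tendsto (fun x => f x / x ^ s) (𝓝[>] (0 : ℝ)) (𝓝 c) := by
        have h2 := hus.add e1
        rw [add_zero] at h2
        refine h2.congr' ?_
        filter_upwards [self_mem_nhdsWithin] with x hx
        have hx1 : (0 : ℝ) < x := hx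
        rw [Real.rpow_sub hx1, Real.rpow_one, ← add_div]
        congr 1; ring
      have hc0 : 0 ≤ c := by
        refine ge_of_tendsto e2 ?_
        filter_upwards [self_mem_nhdsWithin] with x hx
        exact div_nonneg (pos_of h hx).le (Real.rpow_nonneg (le_of_lt hx) s)
      refine ⟨c, s, lt_of_le_of_ne hc0 (Ne.symm hc), hs, h1, e2, fun x => u' x + 1, ?_, ?_⟩
      · filter_upwards [hu] with x hx
        have h3 := hx.add (hasDerivAt_id x)
        refine h3.congr_of_eventuallyEq ?_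
        refine Filter.Eventually.of_forall (fun y => ?_)
        simp
      · have h2 := hus'.add e1
        rw [add_zero] at h2
        refine h2.congr' ?_
        filter_upwards [self_mem_nhdsWithin] with x hx
        have hx1 : (0 : ℝ) < x := hx
        rw [add_div]
        congr 1
        rw [show (1 : ℝ) - s = -(s - 1) by ring, Real.rpow_neg hx1.le, one_div]
    · left
      -- the limit of `u x / x`
      have key : ∃ m, Tendsto (fun x => (f x - x) / x) (𝓝[>] (0 : ℝ)) (𝓝 m) := by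
        rcases eq_or_lt_of_le h1 with h2 | h2
        · refine ⟨c, hus.congr ?_⟩
          intro x
          rw [← h2, Real.rpow_one]
        · refine ⟨c * 0, (hus.mul (rpow_tend (show 0 < s - 1 by linarith))).congr' ?_⟩
          filter_upwards [self_mem_nhdsWithin] with x hx
          have hx1 : (0 : ℝ) < x := hx
          rw [Real.rpow_sub hx1, Real.rpow_one]
          have := (Real.rpow_pos_of_pos hx1 s).ne'
          field_simp
      obtain ⟨m, hm⟩ := key
      have hR : Ra f (1 + m) := by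
        unfold Ra
        have h2 := (tendsto_const_nhds (x := (1 : ℝ))).add hm
        refine h2.congr' ?_
        filter_upwards [self_mem_nhdsWithin] with x hx
        have hx1 : (0 : ℝ) < x := hx
        field_simp
        ring
      refine ⟨1 + m, ?_, hR⟩
      refine ge_of_tendsto hR ?_
      filter_upwards [self_mem_nhdsWithin] with x hx
      exact div_nonneg (pos_of h hx).le (le_of_lt hx)

theorem ra_ex {f : ℝ ≃o ℝ} (h : f 0 = 0) {l : ℝ} (hl : 0 < l) (hR : Ra f l) : Ex f 1 := by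
  apply ex_of h hl
  refine Tendsto.congr ?_ hR
  intro x
  rw [Real.rpow_one]

/-- `f x / x` and its inverse do not both have a finite limit if one of them is `0` -/
theorem ra_zero {f : ℝ ≃o ℝ} (h : f 0 = 0) (hR : Ra f 0) {l : ℝ} (hR' : Ra f⁻¹ l) : False := by
  have h1 : Tendsto (fun x => (f (f⁻¹ x) / (f⁻¹ x)) * (f⁻¹ x / x)) (𝓝[>] (0 : ℝ)) (𝓝 (0 * l)) :=
    (hR.comp (tend (inv_zero' h))).mul hR'
  rw [zero_mul] at h1
  have h2 : Tendsto (fun x => (f (f⁻¹ x) / (f⁻¹ x)) * (f⁻¹ x / x)) (𝓝[>] (0 : ℝ)) (𝓝 1) := by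
    refine (tendsto_const_nhds (x := (1 : ℝ))).congr' ?_
    filter_upwards [self_mem_nhdsWithin] with x hx
    have hx1 : (0 : ℝ) < x := hx
    have hy := (pos_of (inv_zero' h) hx1).ne'
    rw [app_inv]
    field_simp
  exact zero_ne_one (tendsto_nhds_unique h1 h2)

/-- the trichotomy -/
theorem tri {f : ℝ ≃o ℝ} (hG : Good f) :
    (∃ l, 0 < l ∧ Ra f l) ∨ (∃ c s, Sm f c s) ∨ (∃ c s, Sm f⁻¹ c s) := by
  obtain ⟨h, h1, h2⟩ := hG
  rcases cls h h1 with ⟨l, hl, hR⟩ | hS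
  · rcases eq_or_lt_of_le hl with h0 | h0
    · right; right
      rcases cls (inv_zero' h) h2 with ⟨l', _, hR'⟩ | hS
      · rw [← h0] at hR
        exact (ra_zero h hR hR').elim
      · exact hS
    · exact Or.inl ⟨l, h0, hR⟩
  · exact Or.inr (Or.inl hS)

theorem sm_ex {f : ℝ ≃o ℝ} (h : f 0 = 0) {c s : ℝ} (hS : Sm f c s) : Ex f s :=
  ex_of h hS.1 hS.2.2.2.1

theorem sm_ex' {f : ℝ ≃o ℝ} (h : f 0 = 0) {c s : ℝ} (hS : Sm f⁻¹ c s) : Ex f s⁻¹ := by
  have := ex_inv (inv_zero' h) hS.2.1 (sm_ex (inv_zero' h) hS)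
  rwa [inv_inv] at this

theorem item8 {h t : ℝ ≃o ℝ} {c σ k a : ℝ} (h0 : h 0 = 0) (hS : Sm h c σ) (t0 : t 0 = 0) (hk : 0 < k)
    (ha : a ≠ 0) (hA : Asy t (1 + k) a) : ∃ a' : ℝ, a' ≠ 0 ∧ Asy (h * t * h⁻¹) (1 + k / σ) a' := by
  obtain ⟨hc, hσ, hσ1, hlim, h', hder, hlim'⟩ := hS
  refine ⟨σ * c * a / c ^ (1 + k / σ), ?_, ?_⟩
  · have := (Real.rpow_pos_of_pos hc (1 + k / σ)).ne'
    exact div_ne_zero (mul_ne_zero (mul_ne_zero hσ.ne' hc.ne') ha) this
  · -- it is enough to look at `y = h⁻¹ x`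
    have main : Tendsto (fun y => (h (t y) - h y) / (h y) ^ (1 + k / σ)) (𝓝[>] (0 : ℝ))
        (𝓝 (σ * c * a / c ^ (1 + k / σ))) := by
      -- a neighbourhood where `h` is differentiable
      obtain ⟨δ, hδ, hδs⟩ := mem_nhdsGT_iff_exists_Ioo_subset.1 hder
      have hδ0 : (0 : ℝ) < δ := hδ
      have hd : ∀ x, 0 < x → x < δ → HasDerivAt h (h' x) x := fun x hx hx2 => hδs ⟨hx, hx2⟩
      have htt := tend t0
      have hsm : ∀ᶠ y in 𝓝[>] (0 : ℝ), t y ∈ Set.Ioo 0 δ := htt (Ioo_mem_nhdsGT hδ0)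
      have hex : ∀ᶠ y in 𝓝[>] (0 : ℝ), ∃ ξ : ℝ, ξ ∈ Set.uIcc y (t y) ∧ 0 < ξ ∧
          h (t y) - h y = h' ξ * (t y - y) := by
        filter_upwards [hsm, Ioo_mem_nhdsGT hδ0] with y hty hy
        rcases lt_trichotomy y (t y) with hlt | heq | hgt
        · obtain ⟨ξ, hξ, e⟩ := exists_hasDerivAt_eq_slope h h' hlt h.continuous.continuousOn
            (fun x hx => hd x (hy.1.trans hx.1) (hx.2.trans hty.2))
          refine ⟨ξ, ?_, hy.1.trans hξ.1, ?_⟩
          · rw [Set.uIcc_of_le hlt.le]; exact ⟨hξ.1.le, hξ.2.le⟩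
          · rw [e, div_mul_cancel₀ _ (sub_ne_zero.2 hlt.ne')]
        · refine ⟨y, Set.left_mem_uIcc, hy.1, ?_⟩
          rw [← heq]; simp
        · obtain ⟨ξ, hξ, e⟩ := exists_hasDerivAt_eq_slope h h' hgt h.continuous.continuousOn
            (fun x hx => hd x (hty.1.trans hx.1) (hx.2.trans hy.2))
          refine ⟨ξ, ?_, hty.1.trans hξ.1, ?_⟩
          · rw [Set.uIcc_of_ge hgt.le]; exact ⟨hξ.1.le, hξ.2.le⟩
          · have h5 : h y - h (t y) = h' ξ * (y - t y) := by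
              rw [e, div_mul_cancel₀ _ (sub_ne_zero.2 hgt.ne')]
            linarith
      obtain ⟨ξ, hξ⟩ := hex.choice
      -- `t y / y → 1`
      have hrel : Tendsto (fun y => (t y - y) / y) (𝓝[>] (0 : ℝ)) (𝓝 0) := by
        have h6 := hA.mul (rpow_tend hk)
        rw [mul_zero] at h6
        refine h6.congr' ?_
        filter_upwards [self_mem_nhdsWithin] with y hy
        have hy1 : (0 : ℝ) < y := hy
        rw [Real.rpow_add hy1, Real.rpow_one]
        have := (Real.rpow_pos_of_pos hy1 k).ne'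
        field_simp
      have hξ1 : Tendsto (fun y => ξ y / y) (𝓝[>] (0 : ℝ)) (𝓝 1) := by
        have h7 : Tendsto (fun y => ξ y / y - 1) (𝓝[>] (0 : ℝ)) (𝓝 0) := by
          refine squeeze_zero_norm' ?_ (by simpa using hrel.norm)
          filter_upwards [hξ, self_mem_nhdsWithin] with y hy hy0
          have hy1 : (0 : ℝ) < y := hy0
          have e1 : ξ y / y - 1 = (ξ y - y) / y := by field_simp
          rw [e1, norm_div, Real.norm_eq_abs, Real.norm_eq_abs]
          have e3 := div_le_div_of_nonneg_right (Set.abs_sub_left_of_mem_uIcc hy.1) (abs_nonneg y)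
          simpa [Real.norm_eq_abs, abs_div] using e3
        have h8 := h7.add (tendsto_const_nhds (x := (1 : ℝ)))
        rw [zero_add] at h8
        refine h8.congr ?_
        intro y; ring
      have hξ0 : Tendsto ξ (𝓝[>] (0 : ℝ)) (𝓝[>] 0) := by
        apply tendsto_nhdsWithin_of_tendsto_nhds_of_eventually_within
        · have h9 : Tendsto (fun y : ℝ => ξ y / y * y) (𝓝[>] (0 : ℝ)) (𝓝 (1 * 0)) :=
            hξ1.mul (tendsto_id.mono_left nhdsWithin_le_nhds)
          rw [mul_zero] at h9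
          refine h9.congr' ?_
          filter_upwards [self_mem_nhdsWithin] with y hy0
          have hy1 : (0 : ℝ) < y := hy0
          rw [div_mul_cancel₀ _ hy1.ne']
        · filter_upwards [hξ] with y hy
          exact hy.2.1
      have f1 : Tendsto (fun y => h' (ξ y) / (ξ y) ^ (σ - 1)) (𝓝[>] (0 : ℝ)) (𝓝 (σ * c)) :=
        hlim'.comp hξ0
      have f2 : Tendsto (fun y => (ξ y / y) ^ (σ - 1)) (𝓝[>] (0 : ℝ)) (𝓝 1) := by
        have := hξ1.rpow_const (p := σ - 1) (Or.inl one_ne_zero)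
        rwa [Real.one_rpow] at this
      have f3 : Tendsto (fun y => (h y / y ^ σ) ^ (1 + k / σ)) (𝓝[>] (0 : ℝ)) (𝓝 (c ^ (1 + k / σ))) :=
        hlim.rpow_const (p := 1 + k / σ) (Or.inl hc.ne')
      have hcp := (Real.rpow_pos_of_pos hc (1 + k / σ)).ne'
      have f4 := ((f1.mul f2).mul hA).div f3 hcp
      rw [mul_one] at f4
      refine f4.congr' ?_
      filter_upwards [hξ, self_mem_nhdsWithin] with y hy hy0
      have hy1 : (0 : ℝ) < y := hy0
      have hh := pos_of h0 hy1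
      obtain ⟨_, hξp, hmv⟩ := hy
      change h' (ξ y) / (ξ y) ^ (σ - 1) * (ξ y / y) ^ (σ - 1) * ((t y - y) / y ^ (1 + k)) /
        (h y / y ^ σ) ^ (1 + k / σ) = (h (t y) - h y) / (h y) ^ (1 + k / σ)
      rw [hmv, Real.div_rpow hh.le (Real.rpow_nonneg hy1.le _), ← Real.rpow_mul hy1.le,
        Real.div_rpow hξp.le hy1.le]
      have e2 : σ * (1 + k / σ) = (σ - 1) + (1 + k) := by
        field_simp
        ring
      rw [e2, Real.rpow_add hy1 (σ - 1) (1 + k)]
      have p1 := (Real.rpow_pos_of_pos hξp (σ - 1)).ne'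
      have p2 := (Real.rpow_pos_of_pos hy1 (σ - 1)).ne'
      have p3 := (Real.rpow_pos_of_pos hy1 (1 + k)).ne'
      have p4 := (Real.rpow_pos_of_pos hh (1 + k / σ)).ne'
      generalize (ξ y) ^ (σ - 1) = A1 at *
      generalize y ^ (σ - 1) = A2 at *
      generalize y ^ (1 + k) = A3 at *
      generalize (h y) ^ (1 + k / σ) = A4 at *
      field_simp
    have h10 := main.comp (tend (inv_zero' h0))
    unfold Asy
    refine h10.congr ?_
    intro x
    change (h (t (h⁻¹ x)) - h (h⁻¹ x)) / (h (h⁻¹ x)) ^ (1 + k / σ) =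
      (h (t (h⁻¹ x)) - x) / x ^ (1 + k / σ)
    rw [app_inv]

theorem pEX : StEX := by
  refine ⟨?_, ?_, ?_, ?_, ?_, ?_, ?_, ?_⟩
  · intro f hG
    have h := hG.1
    rcases tri hG with ⟨l, hl, hR⟩ | ⟨c, s, hS⟩ | ⟨c, s, hS⟩
    · exact ⟨1, one_pos, ra_ex h hl hR⟩
    · exact ⟨s, hS.2.1, sm_ex h hS⟩
    · exact ⟨s⁻¹, inv_pos.2 hS.2.1, sm_ex' h hS⟩
  · intro f g α β hf hg _ _ h1 h2
    have h3 : Tendsto (fun x => Real.log (f (g x)) / Real.log (g x) * (Real.log (g x) / Real.log x))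
        (𝓝[>] (0 : ℝ)) (𝓝 (α * β)) := (h1.comp (tend hg)).mul h2
    unfold Ex
    refine h3.congr' ?_
    filter_upwards [(tend hg) (Ioo_mem_nhdsGT (show (0 : ℝ) < 1 by norm_num))] with x hx
    have hx' : g x ∈ Set.Ioo (0 : ℝ) 1 := hx
    have hl : Real.log (g x) ≠ 0 := (Real.log_neg hx'.1 hx'.2).ne
    change _ = Real.log (f (g x)) / Real.log x
    rw [div_mul_div_cancel₀ hl]
  · intro f α h ha he
    exact ex_inv h ha he
  · intro f hG he
    have h := hG.1
    rcases tri hG with hh | ⟨c, s, hS⟩ | ⟨c, s, hS⟩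
    · exact hh
    · have := ex_unique he (sm_ex h hS)
      have := hS.2.2.1
      linarith
    · have h1 := ex_unique he (sm_ex' h hS)
      have h2 := hS.2.2.1
      have h3 := hS.2.1
      have h4 : 1 < s⁻¹ := (one_lt_inv₀ h3).2 h2
      linarith
  · intro f g l m hf hg h1 h2
    have h3 : Tendsto (fun x => f (g x) / g x * (g x / x)) (𝓝[>] (0 : ℝ)) (𝓝 (l * m)) :=
      (h1.comp (tend hg)).mul h2
    unfold Ra
    refine h3.congr' ?_
    filter_upwards [self_mem_nhdsWithin] with x hx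
    have hx1 : (0 : ℝ) < x := hx
    change _ = f (g x) / x
    rw [div_mul_div_cancel₀ (pos_of hg hx1).ne']
  · intro f l h hl hR
    exact ra_inv h hl hR
  · intro f hG hR
    rcases hG.2.1 with hZ | ⟨c, s, hc, hs, u', hu, hus, hus'⟩
    · left
      filter_upwards [hZ] with x hx
      linarith
    · right
      rcases lt_or_ge 1 s with h1 | h1
      · refine ⟨s - 1, c, by linarith, hc, ?_, u', hu, ?_⟩
        · unfold Asy
          rw [show 1 + (s - 1) = s by ring]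
          exact hus
        · rw [show 1 + (s - 1) = s by ring]
          exact hus'
      · exfalso
        have h2 : Tendsto (fun x => (f x / x - 1)) (𝓝[>] (0 : ℝ)) (𝓝 0) := by
          have := hR.sub (tendsto_const_nhds (x := (1 : ℝ)))
          rwa [sub_self] at this
        have h3 : ∃ m, Tendsto (fun x : ℝ => x ^ (1 - s)) (𝓝[>] (0 : ℝ)) (𝓝 m) := by
          rcases eq_or_lt_of_le h1 with h4 | h4
          · refine ⟨1, ?_⟩
            rw [h4]
            simp
          · exact ⟨0, rpow_tend (by linarith)⟩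
        obtain ⟨m, hm⟩ := h3
        have h5 := h2.mul hm
        rw [zero_mul] at h5
        have h6 : Tendsto (fun x => (f x - x) / x ^ s) (𝓝[>] (0 : ℝ)) (𝓝 0) := by
          refine h5.congr' ?_
          filter_upwards [self_mem_nhdsWithin] with x hx
          have hx1 : (0 : ℝ) < x := hx
          rw [Real.rpow_sub hx1, Real.rpow_one]
          have := (Real.rpow_pos_of_pos hx1 s).ne'
          field_simp
        exact hc (tendsto_nhds_unique hus h6)
  · intro h t σ k a hG he hσ ht hk ha hD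
    have h0 := hG.1
    rcases tri hG with ⟨l, hl, hR⟩ | ⟨c, s, hS⟩ | ⟨c, s, hS⟩
    · have := ex_unique he (ra_ex h0 hl hR)
      linarith
    · have h1 := ex_unique he (sm_ex h0 hS)
      subst h1
      exact item8 h0 hS ht hk ha hD.1
    · have h1 := ex_unique he (sm_ex' h0 hS)
      have h2 := hS.2.2.1
      have h3 := hS.2.1
      have h4 : 1 < s⁻¹ := (one_lt_inv₀ h3).2 h2
      linarith

end Pool.Agent.Helper37.AH
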